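import Pool.Agent.Lib.MP_2148a5_lc.CAR
import Pool.Agent.Lib.MP_2148a5_lc.LZ.COD
import Pool.Agent.Lib.MP_2148a5_lc.LZ.REV
import Pool.Agent.Lib.MP_2148a5_lc.LZ.ESY
import Pool.Agent.Lib.MP_2148a5_lc.LZ.IND
import Pool.Agent.Lib.MP_2148a5_lc.LZ.CPT
import Pool.Agent.Lib.MP_2148a5_lc.LZ.WID
import Pool.Agent.Lib.MP_2148a5_lc.LZ.HRD
import Pool.Agent.Lib.MP_2148a5_lc.LZ.NUB
import Pool.Agent.Lib.MP_2148a5_lc.LZ.LOC
import Pool.Agent.Lib.MP_2148a5_lc.LZ.SGS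
import Pool.Agent.Lib.MP_2148a5_lc.LZ.SGE
import Pool.Agent.Lib.MP_2148a5_lc.LZ.ECM
import Pool.Agent.Lib.MP_2148a5_lc.LZ.SIN
import Pool.Agent.Lib.MP_2148a5_lc.LZ.FIN

/-!
# The four cardinals of `E_{I,ε}`: `add(E_{I,ε}) = add(N)` and `cof(E_{I,ε}) = cof(N)`

The definitions (`IsIntPart`, `coinMeas`, `NN`, `MM`, `addC`, `covC`, `nonC`, `cofC`) are in
`Pool/Agent/Lib/MP_2148a5_lc/Spec.lean`, `almSet` and `EI` in `Pool/Agent/Lib/MP_2148a5_lc/LZ/Spec.lean`.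
-/

set_option autoImplicit false

namespace Pool.Agent.Results.MP_2148a5_lc.EInvariants

open Pool.Agent.Lib.MP2148a5

/-- In ZFC, for all `(I, ε)` for which `E = E_{I,ε}` contains all singletons: `add(E) = add(N)`,
`cof(E) = cof(N)`, `cov(N), cov(M) ≤ cov(E)`, `non(E) ≤ non(N), non(M)`.  If `non(M) < cov(M)` then the
four cardinals of `E` are pairwise different if and only if `add(N) < non(E)` and `cov(E) < cof(N)`. -/
theorem result (I : ℕ → Finset ℕ) (ε : ℕ → ℝ) (hI : IsIntPart I) (hε : ∀ n, 0 < ε n)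
    (hs : Summable ε) (hE : ∀ x : Cantor, {x} ∈ EI I ε) :
    addC (EI I ε) = addC NN ∧ cofC (EI I ε) = cofC NN ∧
      (covC NN ≤ covC (EI I ε) ∧ covC MM ≤ covC (EI I ε)) ∧
      (nonC (EI I ε) ≤ nonC NN ∧ nonC (EI I ε) ≤ nonC MM) ∧
      (nonC MM < covC MM →
        ((addC (EI I ε) ≠ covC (EI I ε) ∧ addC (EI I ε) ≠ nonC (EI I ε) ∧
          addC (EI I ε) ≠ cofC (EI I ε) ∧ covC (EI I ε) ≠ nonC (EI I ε) ∧
          covC (EI I ε) ≠ cofC (EI I ε) ∧ nonC (EI I ε) ≠ cofC (EI I ε)) ↔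
        (addC NN < nonC (EI I ε) ∧ covC (EI I ε) < cofC NN))) := by
  obtain ⟨⟨h1, h2⟩, ⟨h3, h4⟩, h5, h6⟩ :=
    (specFIN specCAR (specNUB specESY (specHRD specIND specCPT) specWID)
      (specLOC specTUK specCOD specREV) (specSGS specINC specNUL) (specSGE specNUL)
      (specECM specNUL specRES) specSIN I ε hI hε hs).2 hE
  have h7 : addC (EI I ε) ≤ nonC (EI I ε) :=
    FINM.add_le_non _ hE (FINM.univ_not_EI specNUL I ε hI hε hs)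
  have h8 : covC (EI I ε) ≤ cofC (EI I ε) := FINM.cov_le_cof _ hE
  refine ⟨h1, h2, ⟨h3, h4⟩, ⟨h5, h6⟩, fun b => ⟨?_, ?_⟩⟩
  · rintro ⟨-, n2, -, -, n5, -⟩
    rw [← h1, ← h2]
    exact ⟨lt_of_le_of_ne h7 n2, lt_of_le_of_ne h8 n5⟩
  · rintro ⟨a, c⟩
    rw [← h1] at a
    rw [← h2] at c
    have hm : nonC (EI I ε) < covC (EI I ε) := h6.trans_lt (b.trans_le h4)
    exact ⟨(a.trans hm).ne, a.ne, ((a.trans hm).trans c).ne, hm.ne', c.ne, (hm.trans c).ne⟩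

end Pool.Agent.Results.MP_2148a5_lc.EInvariants
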