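import Pool.Agent.Lib.MP_2148a5_lc.CAR
import Pool.Agent.Lib.MP_2148a5_lc.LZ.COD
import Pool.Agent.Lib.MP_2148a5_lc.LZ.REV
import Pool.Agent.Lib.MP_2148a5_lc.LZ.ESY
import Pool.Agent.Lib.MP_2148a5_lc.LZ.IND
import Pool.Agent.Lib.MP_2148a5_lc.LZ.CPT
import Pool.Agent.Lib.MP_2148a5_lc.LZ.WID
import Pool.Agent.Lib.MP_2148a5_lc.LZ.HRD
import Pool.Agent.Lib.MP_2148a5_lc.LZ.NUB
import Pool.Agent.Lib.MP_2148a5_lc.LZ.LOC
import Pool.Agent.Lib.MP_2148a5_lc.LZ.SGS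
import Pool.Agent.Lib.MP_2148a5_lc.LZ.SGE
import Pool.Agent.Lib.MP_2148a5_lc.LZ.ECM
import Pool.Agent.Lib.MP_2148a5_lc.LZ.SIN
import Pool.Agent.Lib.MP_2148a5_lc.LZ.FIN

/-!
# The four cardinals of `S_{I,ε}`: `add(S_{I,ε}) = add(N)` and `cof(S_{I,ε}) = cof(N)`

The definitions (`IsIntPart`, `SI`, `coinMeas`, `NN`, `MM`, `addC`, `covC`, `nonC`, `cofC`) are in
`Pool/Agent/Lib/MP_2148a5_lc/Spec.lean`.
-/

set_option autoImplicit false

namespace Pool.Agent.Results.MP_2148a5_lc.SInvariants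

open Pool.Agent.Lib.MP2148a5

/-- In ZFC, for all `(I, ε)` for which `S = S_{I,ε}` contains all singletons: `add(S) = add(N)`,
`cof(S) = cof(N)`, `cov(N) ≤ cov(S) ≤ non(M)`, `cov(M) ≤ non(S) ≤ non(N)`.  So the four cardinals of `S`
are pairwise different as soon as `add(N) < cov(N)`, `non(M) < cov(M)`, `non(N) < cof(N)`. -/
theorem result (I : ℕ → Finset ℕ) (ε : ℕ → ℝ) (hI : IsIntPart I) (hε : ∀ n, 0 < ε n)
    (hs : Summable ε) (hS : ∀ x : Cantor, {x} ∈ SI I ε) :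
    addC (SI I ε) = addC NN ∧ cofC (SI I ε) = cofC NN ∧
      (covC NN ≤ covC (SI I ε) ∧ covC (SI I ε) ≤ nonC MM) ∧
      (covC MM ≤ nonC (SI I ε) ∧ nonC (SI I ε) ≤ nonC NN) ∧
      (addC NN < covC NN → nonC MM < covC MM → nonC NN < cofC NN →
        addC (SI I ε) < covC (SI I ε) ∧ covC (SI I ε) < nonC (SI I ε) ∧
          nonC (SI I ε) < cofC (SI I ε)) := by
  obtain ⟨⟨h1, h2⟩, ⟨h3, h4⟩, h5, h6⟩ :=
    (specFIN specCAR (specNUB specESY (specHRD specIND specCPT) specWID)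
      (specLOC specTUK specCOD specREV) (specSGS specINC specNUL) (specSGE specNUL)
      (specECM specNUL specRES) specSIN I ε hI hε hs).1 hS
  refine ⟨h1, h2, ⟨h3, h4⟩, ⟨h5, h6⟩, fun a b c => ⟨?_, ?_, ?_⟩⟩
  · rw [h1]
    exact a.trans_le h3
  · exact h4.trans_lt (b.trans_le h5)
  · rw [h2]
    exact h6.trans_lt c

end Pool.Agent.Results.MP_2148a5_lc.SInvariants
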